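import Mathlib
import Pool.Agent.Helper93.ML.Defs

/-!
# Words in marked groups and the direct limit of a tower (MP_021201_al, module M9)
-/

namespace Pool.Agent.Helper69.MLSeq
open Pool.Agent.Helper93.ML

theorem inv1_inv1 (x : Ltr) : inv1 (inv1 x) = x := by
  simp [inv1]

theorem invw_length (w : List Ltr) : (invw w).length = w.length := by
  simp [invw]

section basics
variable {G : Type} [Group G] (M : Mark G)

theorem ev_nil : M.ev [] = 1 := rfl

theorem ev_append (u v : List Ltr) : M.ev (u ++ v) = M.ev u * M.ev v := by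
  simp [Mark.ev]

theorem ev_cons (x : Ltr) (u : List Ltr) : M.ev (x :: u) = M.s x * M.ev u := by
  simp [Mark.ev]

theorem ev_single (x : Ltr) : M.ev [x] = M.s x := by
  simp [Mark.ev]

theorem ev_replicate (n : ℕ) (x : Ltr) : M.ev (List.replicate n x) = M.s x ^ n := by
  simp [Mark.ev]

theorem ev_invw (u : List Ltr) : M.ev (invw u) = (M.ev u)⁻¹ := by
  induction u with
  | nil => simp [invw, Mark.ev]
  | cons x u ih =>
    have h : invw (x :: u) = invw u ++ [inv1 x] := by simp [invw]
    rw [h, ev_append, ih, ev_single, M.s_inv, ev_cons, mul_inv_rev]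

theorem exists_ev (g : G) : ∃ w, M.ev w = g := by
  have h : g ∈ Subgroup.closure (Set.range M.s) := by rw [M.gen]; trivial
  induction h using Subgroup.closure_induction with
  | mem x hx =>
    obtain ⟨y, rfl⟩ := hx
    exact ⟨[y], ev_single M y⟩
  | one => exact ⟨[], rfl⟩
  | mul x y _ _ hx hy =>
    obtain ⟨u, rfl⟩ := hx
    obtain ⟨v, rfl⟩ := hy
    exact ⟨u ++ v, ev_append M u v⟩
  | inv x _ hx =>
    obtain ⟨u, rfl⟩ := hx
    exact ⟨invw u, ev_invw M u⟩

theorem len_ev_le (w : List Ltr) : M.len (M.ev w) ≤ w.length :=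
  Nat.sInf_le ⟨w, rfl, rfl⟩

theorem exists_len (g : G) : ∃ w, M.ev w = g ∧ w.length = M.len g := by
  obtain ⟨w, hw⟩ := exists_ev M g
  exact Nat.sInf_mem (s := {n | ∃ w, M.ev w = g ∧ w.length = n}) ⟨w.length, w, hw, rfl⟩

theorem len_inv_le (g : G) : M.len g⁻¹ ≤ M.len g := by
  obtain ⟨w, hw, hl⟩ := exists_len M g
  rw [← hl, ← invw_length, ← hw, ← ev_invw]
  exact len_ev_le M _

theorem len_inv (g : G) : M.len g⁻¹ = M.len g := by
  refine le_antisymm (len_inv_le M g) ?_
  conv_lhs => rw [← inv_inv g]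
  exact len_inv_le M _

theorem len_mul_le (g h : G) : M.len (g * h) ≤ M.len g + M.len h := by
  obtain ⟨u, hu, hul⟩ := exists_len M g
  obtain ⟨v, hv, hvl⟩ := exists_len M h
  rw [← hul, ← hvl, ← hu, ← hv, ← ev_append, ← List.length_append]
  exact len_ev_le M _

theorem ev_eq_iff (u v : List Ltr) : M.ev u = M.ev v ↔ M.ev (u ++ invw v) = 1 := by
  rw [ev_append, ev_invw, mul_inv_eq_one]

theorem inv_ev_mul (u v : List Ltr) : (M.ev u)⁻¹ * M.ev v = M.ev (invw u ++ v) := by
  rw [ev_append, ev_invw]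

end basics

/-! ## Towers -/

section tower
variable {G : ℕ → Type} [∀ k, Group (G k)] (M : ∀ k, Mark (G k))

/-- the hypotheses on a tower -/
structure IsTower (l : ℕ → ℕ) : Prop where
  step : ∀ k, ∃ φ : G k →* G (k + 1), MapsTo (M k) (M (k + 1)) φ ∧
    ∀ g, φ g = 1 → g ≠ 1 → l (k + 1) ≤ (M k).len g
  mono : Monotone l

variable {M} {l : ℕ → ℕ}

theorem map_ev {G H : Type} [Group G] [Group H] {M : Mark G} {M' : Mark H} {φ : G →* H}
    (h : MapsTo M M' φ) (w : List Ltr) : φ (M.ev w) = M'.ev w := by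
  induction w with
  | nil => simp [Mark.ev]
  | cons x u ih => rw [ev_cons, ev_cons, map_mul, ih, h x]

theorem IsTower.one_succ (hT : IsTower M l) {k : ℕ} {w : List Ltr} (h : (M k).ev w = 1) :
    (M (k + 1)).ev w = 1 := by
  obtain ⟨φ, hφ, -⟩ := hT.step k
  rw [← map_ev hφ, h, map_one]

theorem IsTower.one_mono (hT : IsTower M l) {k j : ℕ} (hkj : k ≤ j) {w : List Ltr}
    (h : (M k).ev w = 1) : (M j).ev w = 1 := by
  induction j, hkj using Nat.le_induction with
  | base => exact h
  | succ j _ ih => exact hT.one_succ ih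

theorem IsTower.one_back (hT : IsTower M l) {k j : ℕ} {w : List Ltr}
    (h : (M j).ev w = 1) (hw : w.length < l (k + 1)) : (M k).ev w = 1 := by
  rcases le_total j k with hjk | hjk
  · exact hT.one_mono hjk h
  · induction j, hjk using Nat.le_induction with
    | base => exact h
    | succ j hkj ih =>
      apply ih
      by_contra hne
      obtain ⟨φ, hφ, hker⟩ := hT.step j
      have h1 := hker ((M j).ev w) (by rw [map_ev hφ, h]) hne
      have h2 := len_ev_le (M j) w
      have h3 := hT.mono (show k + 1 ≤ j + 1 by omega)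
      omega

/-- The limit of a tower. -/
def limN (hT : IsTower M l) : Subgroup (FreeGroup Ltr) where
  carrier := {x | ∃ k, FreeGroup.lift (M k).s x = 1}
  one_mem' := ⟨0, map_one _⟩
  mul_mem' := by
    have key : ∀ (k j : ℕ) (hkj : k ≤ j) (x : FreeGroup Ltr),
        FreeGroup.lift (M k).s x = 1 → FreeGroup.lift (M j).s x = 1 := by
      intro k j hkj x hx
      induction j, hkj using Nat.le_induction with
      | base => exact hx
      | succ j _ ih =>
        obtain ⟨φ, hφ, -⟩ := hT.step j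
        have : (FreeGroup.lift (M (j + 1)).s) = φ.comp (FreeGroup.lift (M j).s) := by
          ext a
          simpa using (hφ a).symm
        rw [this, MonoidHom.comp_apply, ih, map_one]
    rintro x y ⟨k, hk⟩ ⟨j, hj⟩
    refine ⟨max k j, ?_⟩
    rw [map_mul, key k _ (le_max_left _ _) x hk, key j _ (le_max_right _ _) y hj, mul_one]
  inv_mem' := by
    rintro x ⟨k, hk⟩
    exact ⟨k, by rw [map_inv, hk, inv_one]⟩

instance limN_normal (hT : IsTower M l) : (limN hT).Normal where
  conj_mem := by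
    rintro x ⟨k, hk⟩ g
    exact ⟨k, by rw [map_mul, map_mul, hk, mul_one, map_inv, mul_inv_cancel]⟩

theorem exists_limit (hT : IsTower M l) : ∃ (H : Type) (_ : Group H) (L : Mark H),
    ∀ w, L.ev w = 1 ↔ ∃ k, (M k).ev w = 1 := by
  let π := QuotientGroup.mk' (limN hT)
  let L : Mark (FreeGroup Ltr ⧸ limN hT) :=
    { s := fun x => π (FreeGroup.of x)
      s_inv := by
        intro x
        rw [eq_inv_iff_mul_eq_one, ← map_mul]
        change ((_ : FreeGroup Ltr) : FreeGroup Ltr ⧸ limN hT) = 1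
        rw [QuotientGroup.eq_one_iff]
        refine ⟨0, ?_⟩
        rw [map_mul, FreeGroup.lift_apply_of, FreeGroup.lift_apply_of, (M 0).s_inv, inv_mul_cancel]
      gen := by
        rw [eq_top_iff]
        rintro g -
        obtain ⟨x, rfl⟩ := QuotientGroup.mk'_surjective (limN hT) g
        induction x using FreeGroup.induction_on with
        | C1 => rw [map_one]; exact one_mem _
        | of a => exact Subgroup.subset_closure ⟨a, rfl⟩
        | inv_of a ha => rw [map_inv]; exact inv_mem ha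
        | mul x y hx hy => rw [map_mul]; exact mul_mem hx hy }
  refine ⟨FreeGroup Ltr ⧸ limN hT, inferInstance, L, ?_⟩
  intro w
  have h1 : L.ev w = π ((w.map FreeGroup.of).prod) := by
    rw [map_list_prod, List.map_map]
    rfl
  have h2 : ∀ k, FreeGroup.lift (M k).s ((w.map FreeGroup.of).prod) = (M k).ev w := by
    intro k
    rw [map_list_prod, List.map_map]
    unfold Mark.ev
    congr 1
    apply List.map_congr_left
    intro a _
    simp
  rw [h1]
  change ((_ : FreeGroup Ltr) : FreeGroup Ltr ⧸ limN hT) = 1 ↔ _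
  rw [QuotientGroup.eq_one_iff]
  constructor
  · rintro ⟨k, hk⟩
    exact ⟨k, by rw [← h2 k]; exact hk⟩
  · rintro ⟨k, hk⟩
    exact ⟨k, by rw [h2 k]; exact hk⟩

/-! ## The limit and the levels -/

variable {H : Type} [Group H] {L : Mark H}

theorem lim_ev_eq (hL : ∀ w, L.ev w = 1 ↔ ∃ k, (M k).ev w = 1) {k : ℕ} {u v : List Ltr}
    (h : (M k).ev u = (M k).ev v) : L.ev u = L.ev v := by
  rw [ev_eq_iff] at h ⊢
  exact (hL _).2 ⟨k, h⟩

theorem lim_ev_back (hT : IsTower M l) (hL : ∀ w, L.ev w = 1 ↔ ∃ k, (M k).ev w = 1) {k : ℕ}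
    {u v : List Ltr} (h : L.ev u = L.ev v) (hl : u.length + v.length < l (k + 1)) :
    (M k).ev u = (M k).ev v := by
  rw [ev_eq_iff] at h ⊢
  obtain ⟨j, hj⟩ := (hL _).1 h
  refine hT.one_back hj ?_
  rw [List.length_append, invw_length]
  exact hl

theorem lim_len_le (hL : ∀ w, L.ev w = 1 ↔ ∃ k, (M k).ev w = 1) (k : ℕ) (w : List Ltr) :
    L.len (L.ev w) ≤ (M k).len ((M k).ev w) := by
  obtain ⟨v, hv, hvl⟩ := exists_len (M k) ((M k).ev w)
  rw [← hvl, ← lim_ev_eq hL hv]
  exact len_ev_le L v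

theorem lim_len_eq (hT : IsTower M l) (hL : ∀ w, L.ev w = 1 ↔ ∃ k, (M k).ev w = 1) {k : ℕ}
    {w : List Ltr} (hw : 2 * w.length < l (k + 1)) :
    L.len (L.ev w) = (M k).len ((M k).ev w) := by
  refine le_antisymm (lim_len_le hL k w) ?_
  obtain ⟨v, hv, hvl⟩ := exists_len L (L.ev w)
  have h1 := len_ev_le L w
  rw [← lim_ev_back hT hL (k := k) hv (by omega), ← hvl]
  exact len_ev_le _ v

end tower

end Pool.Agent.Helper69.MLSeq
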