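import Mathlib
import Pool.Agent.Helper69.ML.Words

/-!
# The limit of the tower has the two properties (MP_021201_al, module M9)
-/

namespace Pool.Agent.Helper69.MLSeq
open Pool.Agent.Helper93.ML

/-- the kill property of a word at one level -/
def Killed (C : ℕ) {H : Type} [Group H] (M' : Mark H) (l : ℕ) (w : List Ltr) : Prop :=
  ∃ q : List Ltr, q.length ≤ C * l ∧ M'.ev q = M'.ev w ∧
    (∀ ζ, ζ <:+: q → ζ.length ≤ C * M'.len (M'.ev ζ)) ∧
    (∀ j ≤ q.length, l ≤ 4 * M'.d (M'.ev (w.take (l / 2))) (M'.ev (q.take j)))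

section
variable {G : ℕ → Type} [∀ k, Group (G k)] {M : ∀ k, Mark (G k)} {l : ℕ → ℕ}
variable {H : Type} [Group H] {L : Mark H}

/-- letters read along a path -/
theorem exists_letters (f : ℕ → H) (n : ℕ) (hf : IsPath L.d f n) :
    ∃ u : ℕ → List Ltr, (∀ i, (u i).length ≤ 1) ∧ ∀ i < n, f (i + 1) = f i * L.ev (u i) := by
  have h : ∀ i, ∃ u : List Ltr, u.length ≤ 1 ∧ (i < n → f (i + 1) = f i * L.ev u) := by
    intro i
    by_cases hi : i < n
    · obtain ⟨u, hu, hul⟩ := exists_len L ((f i)⁻¹ * f (i + 1))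
      refine ⟨u, ?_, fun _ => ?_⟩
      · rw [hul]; exact hf i hi
      · rw [hu]; group
    · exact ⟨[], by simp, fun h => absurd h hi⟩
  choose u hu1 hu2 using h
  exact ⟨u, hu1, hu2⟩

theorem cutProp_of (hT : IsTower M l) (hL : ∀ w, L.ev w = 1 ↔ ∃ k, (M k).ev w = 1)
    (hlt : ∀ k, k < l (k + 1)) (e : ℕ → Ltr) (he : ∀ k, e k ∈ [lc, lt])
    (geoe : ∀ k, ∀ e' ∈ [lc, lt], ∀ j : ℕ, (M k).len ((M k).s e' ^ j) = j)
    (bot : ∀ k s, l (k + 1) ≤ ((k + 1) + 2) * s → Bottle (M (k + 1)) (e (k + 1)) (k + 1) s) :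
    CutProp L := by
  intro K
  refine ⟨l (K + 1) + 1, fun s hs => ?_⟩
  have hex : ∃ k, (K + 2) * s < l (k + 1) := ⟨(K + 2) * s, hlt _⟩
  obtain ⟨k, hk, hmin⟩ : ∃ k, (K + 2) * s < l (k + 1) ∧ ∀ j < k, ¬ (K + 2) * s < l (j + 1) := by
    classical
    exact ⟨Nat.find hex, Nat.find_spec hex, fun j hj => Nat.find_min hex hj⟩
  have hs1 : s ≤ (K + 2) * s := Nat.le_mul_of_pos_left s (by omega)
  have hKk : K < k := by
    by_contra hle
    have := hT.mono (show k + 1 ≤ K + 1 by omega)
    omega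
  obtain ⟨j, rfl⟩ : ∃ j, k = j + 1 := ⟨k - 1, by omega⟩
  have hlj : l (j + 1) ≤ (K + 2) * s := by
    have := hmin j (by omega)
    omega
  have hKj : (K + 2) * s ≤ ((j + 1) + 2) * s := Nat.mul_le_mul_right s (by omega)
  have hB := bot j s (hlj.trans hKj)
  have hlen : ∀ e' ∈ [lc, lt], ∀ i : ℕ, L.len (L.s e' ^ i) = i := by
    intro e' he' i
    rw [← ev_replicate, lim_len_eq hT hL (k := 2 * i) (w := List.replicate i e'), ev_replicate]
    · exact geoe _ e' he' i
    · rw [List.length_replicate]; exact hlt _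
  refine ⟨(L.s (e (j + 1)))⁻¹ ^ s, L.s (e (j + 1)) ^ s, ?_, ?_, ?_⟩
  · rw [Mark.d, inv_one, one_mul, inv_pow, len_inv]
    exact hlen _ (he _) s
  · rw [Mark.d, inv_one, one_mul]
    exact hlen _ (he _) s
  intro n f hn hf h0 hn1
  obtain ⟨u, hu1, hu2⟩ := exists_letters f n hf
  -- the words `W i`
  let W : ℕ → List Ltr := fun i => Nat.rec (List.replicate s (inv1 (e (j + 1))))
    (fun i w => w ++ u i) i
  have hW0 : W 0 = List.replicate s (inv1 (e (j + 1))) := rfl
  have hW1 : ∀ i, W (i + 1) = W i ++ u i := fun i => rfl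
  have hWl : ∀ i, (W i).length ≤ s + i := by
    intro i
    induction i with
    | zero => rw [hW0]; simp
    | succ i ih =>
      rw [hW1, List.length_append]
      have := hu1 i
      omega
  have hWf : ∀ i ≤ n, f i = L.ev (W i) := by
    intro i
    induction i with
    | zero =>
      intro _
      rw [h0, hW0, ev_replicate, L.s_inv]
    | succ i ih =>
      intro hi
      rw [hu2 i (by omega), ih (by omega), hW1, ev_append]
  have hfin : (M (j + 1)).ev (W n) = (M (j + 1)).s (e (j + 1)) ^ s := by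
    rw [← ev_replicate]
    refine lim_ev_back hT hL ?_ (k := j + 1) ?_
    · rw [← hWf n le_rfl, hn1, ev_replicate]
    · rw [List.length_replicate]
      have h1 := hWl n
      have h2 : (K + 2) * s = K * s + 2 * s := by ring
      have h3 : j + 1 + 1 = (j + 1) + 1 := rfl
      omega
  obtain ⟨i, hin, hi⟩ := hB n (fun i => (M (j + 1)).ev (W i))
    (hn.trans (Nat.mul_le_mul_right s (by omega)))
    (by
      intro i _
      show (M (j + 1)).len (((M (j + 1)).ev (W i))⁻¹ * (M (j + 1)).ev (W (i + 1))) ≤ 1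
      rw [hW1, ev_append, inv_mul_cancel_left]
      exact (len_ev_le _ _).trans (hu1 i))
    (by
      show (M (j + 1)).ev (W 0) = _
      rw [hW0, ev_replicate, (M (j + 1)).s_inv])
    hfin
  refine ⟨i, hin, ?_⟩
  have h1 : L.d 1 (f i) ≤ (M (j + 1)).d 1 ((M (j + 1)).ev (W i)) := by
    rw [Mark.d, Mark.d, inv_one, one_mul, inv_one, one_mul, hWf i hin]
    exact lim_len_le hL _ _
  calc K * L.d 1 (f i) ≤ (j + 1) * (M (j + 1)).d 1 ((M (j + 1)).ev (W i)) :=
        Nat.mul_le_mul (by omega) h1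
    _ ≤ s := hi

/-- the detour at one level, transferred to the limit -/
theorem detour (hT : IsTower M l) (hL : ∀ w, L.ev w = 1 ↔ ∃ k, (M k).ev w = 1) (C k n p R : ℕ)
    (hgrow : 2 * (C + 1) * l k < l (k + 1)) (w : List Ltr) (hw : w.length = l k)
    (hkill : Killed C (M k) (l k) w) (σ : ℕ → H) (hp : p + l k ≤ n)
    (hσ : ∀ i ≤ l k, σ (p + i) = σ p * L.ev (w.take i)) (hR : 4 * R < l k) :
    ∃ (i m j N : ℕ) (q : ℕ → H), i ≤ m ∧ m ≤ j ∧ j ≤ n ∧ IsPath L.d q N ∧
      q 0 = σ i ∧ q N = σ j ∧ (∀ a b, a ≤ b → b ≤ N → b - a ≤ C * L.d (q a) (q b)) ∧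
      (∀ a ≤ N, R < L.d (σ m) (q a)) := by
  obtain ⟨q, hql, hqe, hqg, hqd⟩ := hkill
  have hCl : C * l k + l k = (C + 1) * l k := by ring
  have h2 : 2 * ((C + 1) * l k) < l (k + 1) := by rw [← mul_assoc]; exact hgrow
  refine ⟨p, p + l k / 2, p + l k, q.length, fun a => σ p * L.ev (q.take a), by omega, by omega,
    hp, ?_, ?_, ?_, ?_, ?_⟩
  · intro a ha
    show L.len ((σ p * L.ev (q.take a))⁻¹ * (σ p * L.ev (q.take (a + 1)))) ≤ 1
    have h1 : q.take (a + 1) = q.take a ++ [q[a]] := (List.take_concat_get' q a ha).symm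
    rw [h1, ev_append]
    have h3 : (σ p * L.ev (q.take a))⁻¹ * (σ p * (L.ev (q.take a) * L.ev [q[a]]))
        = L.ev [q[a]] := by group
    rw [h3]
    exact len_ev_le L _
  · show σ p * L.ev (q.take 0) = σ p
    rw [List.take_zero, ev_nil, mul_one]
  · show σ p * L.ev (q.take q.length) = σ (p + l k)
    rw [List.take_length, hσ (l k) le_rfl, ← hw, List.take_length, lim_ev_eq hL hqe]
  · intro a b hab hb
    show b - a ≤ C * L.len ((σ p * L.ev (q.take a))⁻¹ * (σ p * L.ev (q.take b)))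
    have h1 : q.take b = q.take a ++ (q.drop a).take (b - a) := by
      conv_lhs => rw [show b = a + (b - a) by omega]
      exact List.take_add
    have h3 : (σ p * L.ev (q.take a))⁻¹ * (σ p * (L.ev (q.take a) * L.ev ((q.drop a).take (b - a))))
        = L.ev ((q.drop a).take (b - a)) := by group
    rw [h1, ev_append, h3]
    have h4 : ((q.drop a).take (b - a)).length = b - a := by
      rw [List.length_take, List.length_drop]
      omega
    have h5 : (q.drop a).take (b - a) <:+: q :=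
      (List.take_prefix _ _).isInfix.trans (List.drop_suffix _ _).isInfix
    rw [lim_len_eq hT hL (k := k) (by rw [h4]; omega)]
    calc b - a = ((q.drop a).take (b - a)).length := h4.symm
      _ ≤ _ := hqg _ h5
  · intro a ha
    show R < L.len ((σ (p + l k / 2))⁻¹ * (σ p * L.ev (q.take a)))
    rw [hσ (l k / 2) (by omega)]
    have h3 : (σ p * L.ev (w.take (l k / 2)))⁻¹ * (σ p * L.ev (q.take a))
        = L.ev (invw (w.take (l k / 2)) ++ q.take a) := by
      rw [← inv_ev_mul]; group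
    have h4 : (invw (w.take (l k / 2)) ++ q.take a).length ≤ l k / 2 + a := by
      rw [List.length_append, invw_length, List.length_take, List.length_take]
      omega
    rw [h3, lim_len_eq hT hL (k := k) (by omega), ← inv_ev_mul]
    have h5 := hqd a ha
    rw [Mark.d] at h5
    omega

theorem mlProp_of (hT : IsTower M l) (hL : ∀ w, L.ev w = 1 ↔ ∃ k, (M k).ev w = 1)
    (C : ℕ) (hgrow : ∀ k, 2 * (C + 1) * l k + k < l (k + 1))
    (killodd : ∀ k, Odd k → ∀ e ∈ [lt, inv1 lt],
      Killed C (M k) (l k) (List.replicate (l k) e))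
    (killeven : ∀ k, Odd k → ∀ w : List Ltr, w.length = l (k + 1) →
      (M k).len ((M k).ev w) = l (k + 1) → ¬ (List.replicate (l k) lt <:+: w) →
      ¬ (List.replicate (l k) (inv1 lt) <:+: w) → Killed C (M (k + 1)) (l (k + 1)) w) :
    MLProp L := by
  refine ⟨C, fun R => ?_⟩
  -- the level
  obtain ⟨k, hk, hkR⟩ : ∃ k, Odd k ∧ 4 * R < l k := by
    refine ⟨2 * (4 * R) + 1, ⟨4 * R, rfl⟩, ?_⟩
    have := hgrow (2 * (4 * R))
    omega
  have hkk : l k ≤ l (k + 1) := hT.mono (Nat.le_succ k)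
  refine ⟨l (k + 1), fun n hn σ hσ => ?_⟩
  -- the word
  have hlet : ∀ i, ∃ z : Ltr, i < n → σ (i + 1) = σ i * L.s z := by
    intro i
    by_cases hi : i < n
    · obtain ⟨u, hu, hul⟩ := exists_len L ((σ i)⁻¹ * σ (i + 1))
      have h1 : L.len ((σ i)⁻¹ * σ (i + 1)) = 1 := by
        have := hσ i (i + 1) (by omega) (by omega)
        rw [Mark.d] at this
        omega
      rw [h1, List.length_eq_one_iff] at hul
      obtain ⟨z, rfl⟩ := hul
      refine ⟨z, fun _ => ?_⟩
      rw [← ev_single, hu]; group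
    · exact ⟨lc, fun h => absurd h hi⟩
  choose z hz using hlet
  let w : List Ltr := (List.range (l (k + 1))).map z
  have hwl : w.length = l (k + 1) := by simp [w]
  have hread : ∀ i ≤ l (k + 1), σ i = σ 0 * L.ev (w.take i) := by
    intro i
    induction i with
    | zero => intro _; rw [List.take_zero, ev_nil, mul_one]
    | succ i ih =>
      intro hi
      have h1 : w.take (i + 1) = w.take i ++ [z i] := by
        rw [← List.take_concat_get' w i (by rw [hwl]; omega)]
        simp [w]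
      rw [h1, ev_append, ev_single, ← mul_assoc, ← ih (by omega), hz i (by omega)]
  have hgeo : (M k).len ((M k).ev w) = l (k + 1) := by
    refine le_antisymm (hwl ▸ len_ev_le (M k) w) ?_
    have h1 := hσ 0 (l (k + 1)) (Nat.zero_le _) hn
    rw [Mark.d, hread (l (k + 1)) le_rfl, inv_mul_cancel_left, Nat.sub_zero, ← hwl,
      List.take_length] at h1
    rw [← hwl]
    calc w.length = L.len (L.ev w) := h1.symm
      _ ≤ _ := lim_len_le hL k w
  -- the infix case
  have hinf : ∀ e ∈ [lt, inv1 lt], List.replicate (l k) e <:+: w →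
      ∃ (i m j N : ℕ) (q : ℕ → H), i ≤ m ∧ m ≤ j ∧ j ≤ n ∧ IsPath L.d q N ∧
      q 0 = σ i ∧ q N = σ j ∧ (∀ a b, a ≤ b → b ≤ N → b - a ≤ C * L.d (q a) (q b)) ∧
      (∀ a ≤ N, R < L.d (σ m) (q a)) := by
    rintro e he ⟨s, t, hst⟩
    have hlen : s.length + l k + t.length = l (k + 1) := by
      rw [← hwl, ← hst]; simp; ring
    refine detour hT hL C k n s.length R ?_ (List.replicate (l k) e) (by simp)
      (killodd k hk e he) σ (by omega) ?_ hkR
    · have := hgrow k
      omega
    · intro i hi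
      rw [hread (s.length + i) (by omega), hread s.length (by omega), mul_assoc, ← ev_append]
      congr 2
      rw [List.take_add]
      congr 1
      rw [← hst, List.append_assoc, List.drop_left]
      rw [List.take_append_of_le_length (by simpa using hi)]
  by_cases h1 : List.replicate (l k) lt <:+: w
  · exact hinf lt (by simp) h1
  by_cases h2 : List.replicate (l k) (inv1 lt) <:+: w
  · exact hinf (inv1 lt) (by simp) h2
  refine detour hT hL C (k + 1) n 0 R ?_ w hwl (killeven k hk w hwl hgeo h1 h2) σ (by omega) ?_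
    (by omega)
  · have := hgrow (k + 1)
    omega
  · intro i hi
    rw [zero_add]
    exact hread i hi

end

end Pool.Agent.Helper69.MLSeq
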