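import Mathlib
import Pool.Agent.Helper69.ML.Limit

/-!
# The sequence construction (MP_021201_al, module M9)

`stmtSequence : StmtSequence`.
-/

namespace Pool.Agent.Helper69.MLSeq
open Pool.Agent.Helper93.ML

/-- the state after some number of steps -/
structure St (Good : List (ℕ × ℕ) → Prop) where
  G : Type
  grp : Group G
  M : Mark G
  cons : List (ℕ × ℕ)
  δ : ℕ
  good : Good cons
  inv : Inv M cons δ
  geoe : ∀ e' ∈ [lc, lt], ∀ j : ℕ, M.len (M.s e' ^ j) = j
  l : ℕ

attribute [instance] St.grp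

/-- the letter of the bottleneck line at level `k` -/
def eOf (k : ℕ) : Ltr := if Even k then lt else lc

/-- the length of the forbidden infix -/
def rhoOf (k l : ℕ) : ℕ := if Even k then l else 1

variable {Good : List (ℕ × ℕ) → Prop}

/-- the words killed at level `k` -/
def KOf (k : ℕ) (S : St Good) (l' : ℕ) : Set (List Ltr) :=
  if Even k then {w | w.length = l' ∧ S.M.len (S.M.ev w) = l' ∧
    ¬ (List.replicate S.l lt <:+: w) ∧ ¬ (List.replicate S.l (inv1 lt) <:+: w)}
  else {w | w = List.replicate l' lt ∨ w = List.replicate l' (inv1 lt)}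

/-- one level -/
def Rel (C k : ℕ) (S S' : St Good) : Prop :=
  ∃ φ : S.G →* S'.G, StepOut C S.M S'.M φ (KOf k S S'.l) (eOf k) k S'.l ∧
    2 * (C + 1) * S.l + k < S'.l

theorem eOf_mem (k : ℕ) : eOf k ∈ [lc, lt] := by
  unfold eOf
  split_ifs <;> simp

theorem exists_next (C : ℕ)
    (h : ∀ (G : Type) [Group G] (M : Mark G) (cons : List (ℕ × ℕ)) (δ : ℕ),
      Good cons → Inv M cons δ →
      ∀ k ρ : ℕ, ∃ L₀ : ℕ, ∀ l ≥ L₀, ∀ e ∈ [lc, lt], ∀ K : Set (List Ltr),
        (∀ w ∈ K, w.length = l ∧ M.len (M.ev w) = l) →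
        (∀ w ∈ K, ¬ (List.replicate ρ e <:+: w) ∧ ¬ (List.replicate ρ (inv1 e) <:+: w)) →
        ∃ (H : Type) (_ : Group H) (M' : Mark H) (φ : G →* H) (cons' : List (ℕ × ℕ)) (δ' : ℕ),
          Good cons' ∧ Inv M' cons' δ' ∧ StepOut C M M' φ K e k l)
    (k : ℕ) (S : St Good) : ∃ S' : St Good, Rel C k S S' := by
  obtain ⟨L₀, hL₀⟩ := h S.G S.M S.cons S.δ S.good S.inv k (rhoOf k S.l)
  let l := max L₀ (2 * (C + 1) * S.l + k + 1)
  have h1 : ∀ w ∈ KOf k S l, w.length = l ∧ S.M.len (S.M.ev w) = l := by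
    intro w hw
    unfold KOf at hw
    split_ifs at hw with hk
    · exact ⟨hw.1, hw.2.1⟩
    · rcases hw with rfl | rfl
      · refine ⟨by simp, ?_⟩
        rw [ev_replicate]
        exact S.geoe lt (by simp) l
      · refine ⟨by simp, ?_⟩
        rw [ev_replicate, S.M.s_inv, inv_pow, len_inv]
        exact S.geoe lt (by simp) l
  have h2 : ∀ w ∈ KOf k S l, ¬ (List.replicate (rhoOf k S.l) (eOf k) <:+: w) ∧
      ¬ (List.replicate (rhoOf k S.l) (inv1 (eOf k)) <:+: w) := by
    intro w hw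
    unfold KOf at hw
    unfold rhoOf eOf
    split_ifs at hw ⊢ with hk
    · exact hw.2.2
    · have hmem : ∀ x : Ltr, List.replicate 1 x <:+: w → x ∈ w := by
        intro x hx
        exact hx.subset (by simp)
      refine ⟨fun hx => ?_, fun hx => ?_⟩
      · have := hmem _ hx
        rcases hw with rfl | rfl
        · exact absurd (List.eq_of_mem_replicate this) (by decide)
        · exact absurd (List.eq_of_mem_replicate this) (by decide)
      · have := hmem _ hx
        rcases hw with rfl | rfl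
        · exact absurd (List.eq_of_mem_replicate this) (by decide)
        · exact absurd (List.eq_of_mem_replicate this) (by decide)
  obtain ⟨H, gH, M', φ, cons', δ', hgood, hinv, hout⟩ :=
    hL₀ l (le_max_left _ _) (eOf k) (eOf_mem k) (KOf k S l) h1 h2
  refine ⟨⟨H, gH, M', cons', δ', hgood, hinv, hout.geoe, l⟩, φ, hout, ?_⟩
  have : 2 * (C + 1) * S.l + k + 1 ≤ l := le_max_right _ _
  exact this

theorem base_geoe {G : Type} [Group G] {M : Mark G} {δ : ℕ} (h : Inv M [] δ) :
    ∀ e' ∈ [lc, lt], ∀ j : ℕ, M.len (M.s e' ^ j) = j := by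
  intro e' he' j
  have h1 : Clean [] (List.replicate j e') := by
    refine ⟨?_, ?_, ?_⟩
    · unfold Red
      refine List.isChain_replicate_of_rel _ ?_
      intro h2
      have h3 := congrArg Prod.snd h2
      simp [inv1] at h3
    · intro c hc
      simp at hc
    · intro c hc
      simp at hc
  have h2 := h.geod _ h1
  rwa [ev_replicate, List.length_replicate] at h2

theorem ct_of {G : ℕ → Type} [∀ k, Group (G k)] (M : ∀ k, Mark (G k)) (l : ℕ → ℕ) (C : ℕ)
    (step : ∀ k, ∃ φ : G k →* G (k + 1), MapsTo (M k) (M (k + 1)) φ ∧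
      ∀ g, φ g = 1 → g ≠ 1 → l (k + 1) ≤ (M k).len g)
    (hgrow : ∀ k, 2 * (C + 1) * l k + k < l (k + 1))
    (geoe : ∀ k, ∀ e' ∈ [lc, lt], ∀ j : ℕ, (M k).len ((M k).s e' ^ j) = j)
    (bot : ∀ k s, l (k + 1) ≤ ((k + 1) + 2) * s →
      Bottle (M (k + 1)) (eOf (k + 1)) (k + 1) s)
    (killodd : ∀ k, Odd k → ∀ e ∈ [lt, inv1 lt],
      Killed C (M k) (l k) (List.replicate (l k) e))
    (killeven : ∀ k, Odd k → ∀ w : List Ltr, w.length = l (k + 1) →
      (M k).len ((M k).ev w) = l (k + 1) → ¬ (List.replicate (l k) lt <:+: w) →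
      ¬ (List.replicate (l k) (inv1 lt) <:+: w) → Killed C (M (k + 1)) (l (k + 1)) w) :
    StmtCT := by
  have hle : ∀ k, l k ≤ l (k + 1) := by
    intro k
    have h1 := hgrow k
    have h2 : l k ≤ 2 * (C + 1) * l k := Nat.le_mul_of_pos_left _ (by omega)
    omega
  have hT : IsTower M l := ⟨step, monotone_nat_of_le_succ hle⟩
  obtain ⟨H, gH, L, hL⟩ := exists_limit hT
  exact ⟨H, gH, L, cutProp_of hT hL (fun k => by have := hgrow k; omega) eOf eOf_mem geoe bot,
    mlProp_of hT hL C hgrow killodd killeven⟩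

/-- MODULE M9 -/
theorem stmtSequence : StmtSequence := by
  rintro ⟨C, Good, hnil, hstep⟩ ⟨G₀, gG₀, M₀, hinv⟩
  have hnext := fun k S => exists_next (Good := Good) C hstep k S
  choose next hnext using hnext
  obtain ⟨seq, hrel⟩ : ∃ seq : ℕ → St Good, ∀ k, Rel C (k + 1) (seq k) (seq (k + 1)) :=
    ⟨fun k => Nat.rec ⟨G₀, gG₀, M₀, [], 0, hnil, hinv, base_geoe hinv, 0⟩
      (fun k S => next (k + 1) S) k, fun k => hnext (k + 1) _⟩
  refine @ct_of (fun k => (seq k).G) (fun k => (seq k).grp) (fun k => (seq k).M)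
    (fun k => (seq k).l) C ?_ ?_ (fun k => (seq k).geoe) ?_ ?_ ?_
  · intro k
    obtain ⟨φ, h, -⟩ := hrel k
    refine ⟨φ, ?_, ?_⟩
    · exact h.map
    · exact h.ker
  · intro k
    obtain ⟨φ, -, h⟩ := hrel k
    show 2 * (C + 1) * (seq k).l + k < (seq (k + 1)).l
    omega
  · intro k s hs
    obtain ⟨φ, h, -⟩ := hrel k
    exact h.bot s hs
  · rintro k hk e he
    obtain ⟨j, rfl⟩ : ∃ j, k = j + 1 := ⟨k - 1, by
      have := hk.pos
      omega⟩
    obtain ⟨φ, h, -⟩ := hrel j
    refine h.kill _ ?_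
    unfold KOf
    rw [if_neg (Nat.not_even_iff_odd.2 hk)]
    simp only [List.mem_cons, List.not_mem_nil, or_false] at he
    rcases he with rfl | rfl
    · left; rfl
    · right; rfl
  · intro k hk w hw hlen h1 h2
    obtain ⟨φ, h, -⟩ := hrel k
    refine h.kill _ ?_
    unfold KOf
    rw [if_pos (hk.add_one)]
    exact ⟨hw, hlen, h1, h2⟩

end Pool.Agent.Helper69.MLSeq
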